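import Pool.Agent.Lib.MP_00644e_an.F5

/-!
# Martin-kernel weighted gradient integrals: the answer is negative, already for Denjoy domains

There are a domain `Ω ⊆ ℂ` whose complement is contained in the real line (a Denjoy domain) and
which has Green's functions, a point `w₀ ∈ Ω` and a harmonic function `v` on `Ω` with
`1 ≤ v ≤ 5` such that `∫_Ω |∇v| K |∇g(·,w₀)| dA = ∞` for every Martin kernel `K` of `Ω`
(normalised at `w₀`), and more generally for every positive harmonic function `K` on `Ω`.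
-/

set_option autoImplicit false

open Complex Set Filter Topology MeasureTheory InnerProductSpace Pool.Agent.NH

namespace Pool.Agent.Results.MP_00644e_an.DivergentAtEveryMartinPoint

theorem result : ∃ (Ω : Set ℂ) (w₀ : ℂ) (v : ℂ → ℝ), IsOpen Ω ∧ IsConnected Ω ∧
    (∀ z ∉ Ω, z.im = 0) ∧ w₀ ∈ Ω ∧ (∀ z ∈ Ω, ∃ g, IsGreen Ω z g) ∧
    HarmonicOnNhd v Ω ∧ (∀ z ∈ Ω, 1 ≤ v z ∧ v z ≤ 5) ∧
    ∀ g : ℂ → ℝ, IsGreen Ω w₀ g → ∀ K : ℂ → ℝ,
      (IsMartinKernel Ω w₀ K ∨ (HarmonicOnNhd K Ω ∧ ∀ z ∈ Ω, 0 < K z)) →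
      ∫⁻ z in Ω, ENNReal.ofReal (‖gradient v z‖ * K z * ‖gradient g z‖) = ⊤ :=
  final

end Pool.Agent.Results.MP_00644e_an.DivergentAtEveryMartinPoint
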